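import Mathlib

/-!
Project LC, job SIM: elementary lemmas on perturbed orbits.
-/

set_option autoImplicit false

open Filter Topology Metric Set

namespace Pool.Agent.Y79.LC

/-- the error of the linear approximation of a power -/
lemma pow_err (d : ℕ) {x u : ℂ} (hx : ‖x‖ ≤ 2) (hu : ‖u‖ ≤ 1) :
    ‖(x + u) ^ d - x ^ d - d * x ^ (d - 1) * u‖ ≤ (d ^ 2 * 3 ^ d) * ‖u‖ ^ 2 := by
  induction d with
  | zero => simp
  | succ d ih =>
    rcases Nat.eq_zero_or_pos d with rfl | hd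
    · simp
    have e : (x + u) ^ (d + 1) - x ^ (d + 1) - ((d + 1 : ℕ) : ℂ) * x ^ (d + 1 - 1) * u =
        (x + u) * ((x + u) ^ d - x ^ d - d * x ^ (d - 1) * u) + d * x ^ (d - 1) * u ^ 2 := by
      obtain ⟨k, rfl⟩ : ∃ k, d = k + 1 := ⟨d - 1, by omega⟩
      simp only [Nat.add_sub_cancel]
      push_cast
      ring
    rw [e]
    have h1 : ‖x + u‖ ≤ 3 := (norm_add_le _ _).trans (by linarith)
    have h2 : ‖x‖ ^ (d - 1) ≤ 3 ^ d := by
      calc ‖x‖ ^ (d - 1) ≤ 3 ^ (d - 1) := pow_le_pow_left₀ (norm_nonneg _) (by linarith) _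
        _ ≤ 3 ^ d := pow_le_pow_right₀ (by norm_num) (by omega)
    have h3 : ‖(x + u) * ((x + u) ^ d - x ^ d - d * x ^ (d - 1) * u)‖ ≤
        3 * ((d ^ 2 * 3 ^ d) * ‖u‖ ^ 2) := by
      rw [norm_mul]
      exact mul_le_mul h1 ih (norm_nonneg _) (by norm_num)
    have h4 : ‖(d : ℂ) * x ^ (d - 1) * u ^ 2‖ ≤ (d * 3 ^ d) * ‖u‖ ^ 2 := by
      rw [norm_mul, norm_mul, norm_pow, norm_pow, Complex.norm_natCast]
      gcongr
    refine (norm_add_le _ _).trans ((add_le_add h3 h4).trans ?_)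
    have h5 : (0 : ℝ) ≤ 3 ^ d * ‖u‖ ^ 2 := by positivity
    have h6 : (1 : ℝ) ≤ d := by exact_mod_cast hd
    have e3 : (3 : ℝ) ^ (d + 1) = 3 ^ d * 3 := pow_succ 3 d
    rw [e3]
    push_cast
    have h7 : (0 : ℝ) ≤ (5 * d + 3) * (3 ^ d * ‖u‖ ^ 2) := by positivity
    linarith [h7]

/-- perturbed orbits in the linear regime -/
lemma lin {d : ℕ} (hd : 2 ≤ d) {o a M : ℕ → ℂ} {v ζ c0 : ℂ} {S ε₁ Z : ℝ} {K : ℕ}
    (ho : ∀ k, o (k + 1) = o k ^ d + c0) (ha : ∀ k, a (k + 1) = a k ^ d + c0 + ζ)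
    (h0 : a 0 = o 0 + v) (hM0 : M 0 = 1) (hM : ∀ k, M (k + 1) = M k * (d * o k ^ (d - 1)))
    (hMne : ∀ k, M k ≠ 0) (ho2 : ∀ k, ‖o k‖ ≤ 2)
    (hS : ∀ k, ∑ j ∈ Finset.range (k + 1), ‖M j‖⁻¹ ≤ S)
    (hsmall : ∀ k, k ≤ K → 2 * S * (‖v‖ + ‖ζ‖) * ‖M k‖ ≤ 1)
    (hZ : ∑ i ∈ Finset.range K, ‖M i‖ ^ 2 * ‖M (i + 1)‖⁻¹ ≤ Z)
    (hε : 4 * (d ^ 2 * 3 ^ d) * S ^ 2 * (‖v‖ + ‖ζ‖) * Z ≤ ε₁) (hε1 : ε₁ ≤ 1) :
    ∀ k, k ≤ K → ‖(a k - o k) - M k * (v + ζ * (∑ j ∈ Finset.range (k + 1), (M j)⁻¹ - 1))‖ ≤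
      ‖M k‖ * (ε₁ * (‖v‖ + ‖ζ‖)) := by
  obtain ⟨T, hT⟩ : ∃ T : ℝ, T = ‖v‖ + ‖ζ‖ := ⟨_, rfl⟩
  obtain ⟨C, hC⟩ : ∃ C : ℝ, C = d ^ 2 * 3 ^ d := ⟨_, rfl⟩
  rw [← hT] at hsmall hε ⊢
  rw [← hC] at hε
  have hC0 : 0 ≤ C := by rw [hC]; positivity
  have hT0 : 0 ≤ T := by rw [hT]; positivity
  have hS1 : 1 ≤ S := by
    have := hS 0
    rw [Finset.sum_range_one, hM0] at this
    simpa using this
  have hMp : ∀ k, 0 < ‖M k‖ := fun k => norm_pos_iff.2 (hMne k)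
  -- the normalised differences
  let y : ℕ → ℂ := fun k => (a k - o k) / M k
  have hy : ∀ k, a k - o k = M k * y k := fun k => by
    simp only [y]
    rw [mul_div_cancel₀ _ (hMne k)]
  let E : ℕ → ℂ := fun k => a k ^ d - o k ^ d - d * o k ^ (d - 1) * (a k - o k)
  have hrec : ∀ k, y (k + 1) = y k + ζ / M (k + 1) + E k / M (k + 1) := by
    intro k
    have h1 := hMne (k + 1)
    have h2 := hMne k
    have h3 : a (k + 1) - o (k + 1) = d * o k ^ (d - 1) * (a k - o k) + ζ + E k := by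
      rw [ha, ho]
      simp only [E]
      ring
    have h4 : d * o k ^ (d - 1) * (a k - o k) = M (k + 1) * y k := by
      rw [hy k, hM k]
      ring
    simp only [y]
    rw [h3, h4, add_div, add_div, mul_div_cancel_left₀ _ h1]
  have hR : ∀ k, ‖v + ζ * (∑ j ∈ Finset.range (k + 1), (M j)⁻¹ - 1)‖ ≤ S * T := by
    intro k
    have h1 : ∑ j ∈ Finset.range (k + 1), (M j)⁻¹ - 1 =
        ∑ j ∈ Finset.range k, (M (j + 1))⁻¹ := by
      rw [Finset.sum_range_succ', hM0, inv_one, add_sub_cancel_right]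
    have h2 : ‖∑ j ∈ Finset.range k, (M (j + 1))⁻¹‖ ≤ S := by
      refine (norm_sum_le _ _).trans (le_trans ?_ (hS k))
      rw [Finset.sum_range_succ']
      have : ∀ j ∈ Finset.range k, ‖(M (j + 1))⁻¹‖ ≤ ‖M (j + 1)‖⁻¹ := fun j _ => by
        rw [norm_inv]
      have h3 := Finset.sum_le_sum this
      have h4 : 0 ≤ ‖M 0‖⁻¹ := by positivity
      linarith
    rw [h1]
    calc ‖v + ζ * ∑ j ∈ Finset.range k, (M (j + 1))⁻¹‖
        ≤ ‖v‖ + ‖ζ‖ * ‖∑ j ∈ Finset.range k, (M (j + 1))⁻¹‖ := by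
          refine (norm_add_le _ _).trans ?_
          rw [norm_mul]
      _ ≤ S * ‖v‖ + ‖ζ‖ * S := by
          have := norm_nonneg v
          gcongr
          nlinarith
      _ = S * T := by rw [hT]; ring
  have hsum : ∀ k, k ≤ K → ∑ i ∈ Finset.range k, ‖M i‖ ^ 2 * ‖M (i + 1)‖⁻¹ ≤ Z := by
    intro k hk
    refine le_trans (Finset.sum_le_sum_of_subset_of_nonneg ?_ ?_) hZ
    · intro i hi
      rw [Finset.mem_range] at hi ⊢
      omega
    · intro i _ _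
      positivity
  have hZ0 : 0 ≤ Z := le_trans (Finset.sum_nonneg fun i _ => by positivity) hZ
  have main : ∀ k, k ≤ K → ‖y k - (v + ζ * (∑ j ∈ Finset.range (k + 1), (M j)⁻¹ - 1))‖ ≤
      4 * C * S ^ 2 * T ^ 2 * ∑ i ∈ Finset.range k, ‖M i‖ ^ 2 * ‖M (i + 1)‖⁻¹ := by
    intro k
    induction k with
    | zero =>
      intro _
      simp only [y]
      rw [h0, hM0, Finset.sum_range_one, hM0, Finset.sum_range_zero]
      simp
    | succ k ih =>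
      intro hk
      have h1 := ih (by omega)
      have hsk := hsum k (by omega)
      have h2 : 4 * C * S ^ 2 * T ^ 2 * ∑ i ∈ Finset.range k, ‖M i‖ ^ 2 * ‖M (i + 1)‖⁻¹ ≤ T := by
        calc 4 * C * S ^ 2 * T ^ 2 * ∑ i ∈ Finset.range k, ‖M i‖ ^ 2 * ‖M (i + 1)‖⁻¹
            ≤ 4 * C * S ^ 2 * T ^ 2 * Z := by gcongr
          _ = (4 * C * S ^ 2 * T * Z) * T := by ring
          _ ≤ 1 * T := by gcongr; linarith
          _ = T := one_mul T
      have h3 : ‖y k‖ ≤ 2 * S * T := by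
        have h4 := hR k
        have h5 : y k = (y k - (v + ζ * (∑ j ∈ Finset.range (k + 1), (M j)⁻¹ - 1))) +
            (v + ζ * (∑ j ∈ Finset.range (k + 1), (M j)⁻¹ - 1)) := by ring
        have h6 := norm_add_le (y k - (v + ζ * (∑ j ∈ Finset.range (k + 1), (M j)⁻¹ - 1)))
          (v + ζ * (∑ j ∈ Finset.range (k + 1), (M j)⁻¹ - 1))
        rw [← h5] at h6
        nlinarith
      have h4 : ‖a k - o k‖ ≤ 1 := by
        rw [hy k, norm_mul]
        calc ‖M k‖ * ‖y k‖ ≤ ‖M k‖ * (2 * S * T) := by gcongr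
          _ = 2 * S * T * ‖M k‖ := by ring
          _ ≤ 1 := hsmall k (by omega)
      have h5 : ‖E k‖ ≤ C * ‖a k - o k‖ ^ 2 := by
        have := pow_err d (ho2 k) h4
        rw [← hC] at this
        have e : o k + (a k - o k) = a k := by ring
        rw [e] at this
        exact this
      have h6 : ‖E k / M (k + 1)‖ ≤ 4 * C * S ^ 2 * T ^ 2 * (‖M k‖ ^ 2 * ‖M (k + 1)‖⁻¹) := by
        rw [norm_div, div_eq_mul_inv]
        have h7 : ‖a k - o k‖ ^ 2 ≤ (‖M k‖ * (2 * S * T)) ^ 2 := by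
          rw [hy k, norm_mul]
          gcongr
        calc ‖E k‖ * ‖M (k + 1)‖⁻¹ ≤ (C * (‖M k‖ * (2 * S * T)) ^ 2) * ‖M (k + 1)‖⁻¹ := by
              have := mul_le_mul_of_nonneg_left h7 hC0
              gcongr
              linarith
          _ = 4 * C * S ^ 2 * T ^ 2 * (‖M k‖ ^ 2 * ‖M (k + 1)‖⁻¹) := by ring
      have h8 : y (k + 1) - (v + ζ * (∑ j ∈ Finset.range (k + 1 + 1), (M j)⁻¹ - 1)) =
          (y k - (v + ζ * (∑ j ∈ Finset.range (k + 1), (M j)⁻¹ - 1))) + E k / M (k + 1) := by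
        rw [hrec k, Finset.sum_range_succ _ (k + 1)]
        ring
      rw [h8, Finset.sum_range_succ (fun i => ‖M i‖ ^ 2 * ‖M (i + 1)‖⁻¹) k, mul_add]
      exact (norm_add_le _ _).trans (add_le_add h1 h6)
  intro k hk
  have h1 := main k hk
  have h2 : 4 * C * S ^ 2 * T ^ 2 * ∑ i ∈ Finset.range k, ‖M i‖ ^ 2 * ‖M (i + 1)‖⁻¹ ≤
      ε₁ * T := by
    calc 4 * C * S ^ 2 * T ^ 2 * ∑ i ∈ Finset.range k, ‖M i‖ ^ 2 * ‖M (i + 1)‖⁻¹
        ≤ 4 * C * S ^ 2 * T ^ 2 * Z := by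
          have := hsum k hk
          gcongr
      _ = (4 * C * S ^ 2 * T * Z) * T := by ring
      _ ≤ ε₁ * T := by gcongr
  rw [hy k, ← mul_sub, norm_mul]
  exact mul_le_mul_of_nonneg_left (h1.trans h2) (norm_nonneg _)

/-- difference of powers -/
lemma pow_sub_le {d : ℕ} {x y : ℂ} (hx : ‖x‖ ≤ 4) (hy : ‖y‖ ≤ 4) :
    ‖x ^ d - y ^ d‖ ≤ (d * 4 ^ (d - 1)) * ‖x - y‖ := by
  rw [← geom_sum₂_mul, norm_mul]
  refine mul_le_mul_of_nonneg_right ?_ (norm_nonneg _)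
  refine (norm_sum_le _ _).trans ?_
  have : ∀ i ∈ Finset.range d, ‖x ^ i * y ^ (d - 1 - i)‖ ≤ (4 : ℝ) ^ (d - 1) := by
    intro i hi
    rw [Finset.mem_range] at hi
    rw [norm_mul, norm_pow, norm_pow]
    calc ‖x‖ ^ i * ‖y‖ ^ (d - 1 - i) ≤ 4 ^ i * 4 ^ (d - 1 - i) := by gcongr
      _ = 4 ^ (d - 1) := by
        rw [← pow_add]
        congr 1
        omega
  refine (Finset.sum_le_sum this).trans ?_
  rw [Finset.sum_const, Finset.card_range, nsmul_eq_mul]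

/-- comparison of the orbits of a point for two parameters -/
lemma cmp {d : ℕ} (hd : 2 ≤ d) {c0 c a : ℂ} {q : ℕ} (h2 : ‖c0‖ ≤ 2)
    (hq : ‖(fun z : ℂ => z ^ d + c0)^[q] a‖ ≤ 3)
    (hζ : ‖c - c0‖ * (q * (d * 4 ^ (d - 1) : ℝ) ^ q) ≤ 1) :
    ‖(fun z : ℂ => z ^ d + c)^[q] a - (fun z : ℂ => z ^ d + c0)^[q] a‖ ≤
      ‖c - c0‖ * (q * (d * 4 ^ (d - 1) : ℝ) ^ q) := by
  obtain ⟨L, hL⟩ : ∃ L : ℝ, L = d * 4 ^ (d - 1) := ⟨_, rfl⟩
  rw [← hL] at hζ ⊢
  have hL1 : 1 ≤ L := by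
    rw [hL]
    have h1 : (1 : ℝ) ≤ d := by exact_mod_cast (by omega : 1 ≤ d)
    have h2 : (1 : ℝ) ≤ 4 ^ (d - 1) := one_le_pow₀ (by norm_num)
    nlinarith
  set b : ℕ → ℂ := fun j => (fun z : ℂ => z ^ d + c0)^[j] a with hb
  set b' : ℕ → ℂ := fun j => (fun z : ℂ => z ^ d + c)^[j] a with hb'
  have hbs : ∀ j, b (j + 1) = b j ^ d + c0 := fun j => by
    simp only [hb]
    rw [Function.iterate_succ_apply']
  have hbs' : ∀ j, b' (j + 1) = b' j ^ d + c := fun j => by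
    simp only [hb']
    rw [Function.iterate_succ_apply']
  have hesc : ∀ j m, 3 < ‖b j‖ → 3 < ‖b (j + m)‖ := by
    intro j m hj
    induction m with
    | zero => exact hj
    | succ m ih =>
      rw [← add_assoc, hbs]
      have h3 : ‖b (j + m)‖ ^ 2 ≤ ‖b (j + m)‖ ^ d := pow_le_pow_right₀ (by linarith) hd
      have h4 : ‖b (j + m) ^ d + c0‖ ≥ ‖b (j + m)‖ ^ d - ‖c0‖ := by
        have := norm_sub_norm_le (b (j + m) ^ d) (-c0)
        rw [norm_neg, sub_neg_eq_add, norm_pow] at this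
        exact this
      nlinarith
  have hb3 : ∀ j, j ≤ q → ‖b j‖ ≤ 3 := by
    intro j hj
    by_contra h
    push Not at h
    have := hesc j (q - j) h
    rw [Nat.add_sub_cancel' hj] at this
    linarith
  have main : ∀ j, j ≤ q → ‖b' j - b j‖ ≤ ‖c - c0‖ * (j * L ^ j) := by
    intro j
    induction j with
    | zero =>
      intro _
      simp [hb, hb']
    | succ j ih =>
      intro hj
      have h1 := ih (by omega)
      have h3 : ‖c - c0‖ * (j * L ^ j) ≤ 1 := by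
        refine le_trans ?_ hζ
        have : (j : ℝ) ≤ q := by exact_mod_cast (by omega : j ≤ q)
        gcongr
        omega
      have h4 := hb3 j (by omega)
      have h5 : ‖b' j‖ ≤ 4 := by
        have := norm_add_le (b' j - b j) (b j)
        rw [sub_add_cancel] at this
        linarith
      have h6 := pow_sub_le (d := d) h5 (by linarith : ‖b j‖ ≤ 4)
      rw [← hL] at h6
      have h7 : b' (j + 1) - b (j + 1) = (b' j ^ d - b j ^ d) + (c - c0) := by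
        rw [hbs, hbs']
        ring
      rw [h7]
      have h8 : (1 : ℝ) ≤ L ^ (j + 1) := one_le_pow₀ hL1
      calc ‖(b' j ^ d - b j ^ d) + (c - c0)‖ ≤ L * ‖b' j - b j‖ + ‖c - c0‖ :=
            (norm_add_le _ _).trans (by linarith)
        _ ≤ L * (‖c - c0‖ * (j * L ^ j)) + ‖c - c0‖ * L ^ (j + 1) := by
            have := norm_nonneg (c - c0)
            gcongr
            nlinarith
        _ = ‖c - c0‖ * (((j + 1 : ℕ) : ℝ) * L ^ (j + 1)) := by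
            push_cast
            ring
  exact main q le_rfl

/-- the open mapping step -/
lemma open_step {g : ℂ → ℂ} {c0 b : ℂ} {m ρ : ℝ} (hg : Differentiable ℂ g) (hm : 0 < m)
    (hρ : 0 < ρ) (h : ∀ z, ‖z - c0‖ ≤ ρ → m * ‖z - c0‖ ≤ ‖g z - g c0‖)
    (hb : ‖b - g c0‖ < m * ρ / 2) : ∃ z, ‖z - c0‖ ≤ ρ ∧ g z = b := by
  have h1 : DiffContOnCl ℂ g (ball c0 ρ) := hg.diffContOnCl
  have h2 : ∀ z ∈ sphere c0 ρ, m * ρ ≤ ‖g z - g c0‖ := by
    intro z hz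
    rw [mem_sphere_iff_norm] at hz
    have := h z hz.le
    rwa [hz] at this
  have h3 : ∃ᶠ z in 𝓝 c0, g z ≠ g c0 := by
    have h4 : ∀ᶠ z in 𝓝[≠] c0, g z ≠ g c0 := by
      have h5 : closedBall c0 ρ ∈ 𝓝 c0 := closedBall_mem_nhds c0 hρ
      filter_upwards [mem_nhdsWithin_of_mem_nhds h5, self_mem_nhdsWithin] with z hz hz'
      intro heq
      rw [mem_closedBall_iff_norm] at hz
      have h6 := h z hz
      rw [heq, sub_self, norm_zero] at h6
      have h7 : 0 < ‖z - c0‖ := norm_pos_iff.2 (sub_ne_zero.2 hz')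
      nlinarith
    exact h4.frequently.filter_mono nhdsWithin_le_nhds
  have h4 := h1.ball_subset_image_closedBall hρ h2 h3
  obtain ⟨z, hz, hzb⟩ := h4 (by rw [mem_ball_iff_norm]; exact hb)
  rw [mem_closedBall_iff_norm] at hz
  exact ⟨z, hz, hzb⟩

end Pool.Agent.Y79.LC
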