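import Mathlib
import Pool.Agent.Y37.TY.Trans
import Pool.Agent.Y79.LC.SimA

/-!
Project LC, job SIM: growth of the multipliers.
-/

set_option autoImplicit false

open Filter Topology Metric Set

namespace Pool.Agent.Y79.LC

open Pool.Agent.H712R2 Pool.Agent.Y272.TY

lemma bb_mono {k n : ℕ} (h : k ≤ n) : bb k ≤ bb n := by
  have h1 : (k : ℝ) ≤ n := by exact_mod_cast h
  have h0 : (0 : ℝ) ≤ k := Nat.cast_nonneg k
  unfold bb
  have h2 : Real.log ((k : ℝ) + 2) ≤ Real.log ((n : ℝ) + 2) :=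
    Real.log_le_log (by linarith) (by linarith)
  have h3 : 0 ≤ Real.log ((k : ℝ) + 2) := Real.log_nonneg (by linarith)
  gcongr

/-- the facts on the multipliers used below -/
lemma facts {d : ℕ} {c0 : ℂ} {A : ℝ} (hd : 2 ≤ d) (hA : 0 ≤ A)
    (H2 : ∀ n : ℕ, Real.exp (-(A * Real.log (n + 2))) ≤ ‖P d (n + 1) c0‖)
    (H3 : ∀ k : ℕ, |∑ n ∈ Finset.range k, Real.log ‖P d (n + 1) c0‖| ≤ A * bb k) :
    ∃ S : ℝ, 0 < S ∧ (∀ k, ∑ j ∈ Finset.range (k + 1), ‖Y37.TY.M d c0 j‖⁻¹ ≤ S) ∧
      ∀ τ : ℝ, 0 < τ → ∀ K₀ : ℕ, ∃ n₀ : ℕ, ∀ n : ℕ, n₀ ≤ n → ∃ q K : ℕ, n = q + K ∧ K₀ ≤ K ∧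
        (∀ i, i ≤ K → ‖Y37.TY.M d c0 i‖ * (n + 2) ≤ ‖Y37.TY.M d c0 n‖) ∧
        (∑ i ∈ Finset.range K, ‖Y37.TY.M d c0 i‖ ^ 2 * ‖Y37.TY.M d c0 (i + 1)‖⁻¹) * (n + 2) ≤
          ‖Y37.TY.M d c0 n‖ ∧
        q * (d * 4 ^ (d - 1) : ℝ) ^ q ≤ τ * ‖Y37.TY.M d c0 n‖ := by
  have hd2 : (2 : ℝ) ≤ d := by exact_mod_cast hd
  obtain ⟨l, hl⟩ : ∃ l : ℝ, l = Real.log d := ⟨_, rfl⟩
  have hl2 : 1 / 2 ≤ l := by
    have h1 : Real.log 2 ≤ Real.log d := Real.log_le_log (by norm_num) hd2
    have := Real.log_two_gt_d9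
    rw [hl]
    linarith
  obtain ⟨B, hB⟩ : ∃ B : ℝ, B = (d - 1) * A := ⟨_, rfl⟩
  have hd1 : (0 : ℝ) ≤ (d : ℝ) - 1 := by linarith
  have hB0 : 0 ≤ B := by rw [hB]; exact mul_nonneg hd1 hA
  have hne : ∀ n : ℕ, P d (n + 1) c0 ≠ 0 := fun n =>
    norm_pos_iff.1 (lt_of_lt_of_le (Real.exp_pos _) (H2 n))
  have hexp : ∀ k, ‖Y37.TY.M d c0 k‖ = Real.exp (l * k + (d - 1) * Y37.TY.S d c0 k) := fun k => by
    rw [Y37.TY.norm_M_exp hd fun j _ => hne j, hl]
  have hSb : ∀ k, |(d - 1) * Y37.TY.S d c0 k| ≤ B * bb k := by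
    intro k
    rw [abs_mul, abs_of_nonneg hd1, hB, mul_assoc]
    exact mul_le_mul_of_nonneg_left (H3 k) hd1
  have hub : ∀ k, ‖Y37.TY.M d c0 k‖ ≤ Real.exp (l * k + B * bb k) := fun k => by
    rw [hexp]
    exact Real.exp_le_exp.2 (by linarith [(abs_le.1 (hSb k)).2])
  have hlb : ∀ k, Real.exp (l * k - B * bb k) ≤ ‖Y37.TY.M d c0 k‖ := fun k => by
    rw [hexp]
    exact Real.exp_le_exp.2 (by linarith [(abs_le.1 (hSb k)).1])
  have hMp : ∀ k, 0 < ‖Y37.TY.M d c0 k‖ := fun k => lt_of_lt_of_le (Real.exp_pos _) (hlb k)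
  -- the sum of the inverses
  obtain ⟨K1, hK10, hK1⟩ := Y37.TY.growth B (l / 2) hB0 (by linarith)
  obtain ⟨x, hx⟩ : ∃ x : ℝ, x = Real.exp (-(l / 2)) := ⟨_, rfl⟩
  have hx0 : 0 < x := by rw [hx]; exact Real.exp_pos _
  have hx1 : x < 1 := by rw [hx, Real.exp_lt_one_iff]; linarith
  refine ⟨Real.exp K1 * (1 - x)⁻¹, mul_pos (Real.exp_pos _) (inv_pos.2 (by linarith)), ?_, ?_⟩
  · intro k
    have h1 : ∀ j ∈ Finset.range (k + 1), ‖Y37.TY.M d c0 j‖⁻¹ ≤ Real.exp K1 * x ^ j := by
      intro j _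
      have h2 : ‖Y37.TY.M d c0 j‖⁻¹ ≤ (Real.exp (l * j - B * bb j))⁻¹ :=
        inv_anti₀ (Real.exp_pos _) (hlb j)
      rw [← Real.exp_neg] at h2
      refine h2.trans ?_
      rw [hx, ← Real.exp_nat_mul, ← Real.exp_add, Real.exp_le_exp]
      have := hK1 j
      linarith
    refine (Finset.sum_le_sum h1).trans ?_
    rw [← Finset.mul_sum]
    refine mul_le_mul_of_nonneg_left ?_ (Real.exp_pos _).le
    rw [← tsum_geometric_of_lt_one hx0.le hx1]
    exact (summable_geometric_of_lt_one hx0.le hx1).sum_le_tsum _ fun i _ => by positivity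
  · intro τ hτ K₀
    obtain ⟨L, hL⟩ : ∃ L : ℝ, L = d * 4 ^ (d - 1) := ⟨_, rfl⟩
    have hL1 : 1 ≤ L := by
      rw [hL]
      have h2 : (1 : ℝ) ≤ 4 ^ (d - 1) := one_le_pow₀ (by norm_num)
      nlinarith
    have hlogL : 0 ≤ Real.log L := Real.log_nonneg hL1
    obtain ⟨K2, hK20, hK2⟩ := Y37.TY.growth (B + (1 + Real.log L) * (8 * B + 8)) (l / 2)
      (by positivity) (by linarith)
    obtain ⟨K3, hK30, hK3⟩ := Y37.TY.growth (8 * B + 8) (1 / 2) (by positivity) (by norm_num)
    -- the threshold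
    obtain ⟨N1, hN1⟩ := exists_nat_ge (2 * (K₀ + K3 + 1))
    obtain ⟨N2, hN2⟩ := exists_nat_ge ((K2 + (1 + Real.log L) - Real.log τ) / (l / 2))
    refine ⟨max N1 N2, fun n hn => ?_⟩
    have hn1 : 2 * (K₀ + K3 + 1) ≤ (n : ℝ) := by
      have : (N1 : ℝ) ≤ n := by exact_mod_cast (le_max_left N1 N2).trans hn
      linarith
    have hn2 : K2 + (1 + Real.log L) - Real.log τ ≤ (l / 2) * n := by
      have h1 : (N2 : ℝ) ≤ n := by exact_mod_cast (le_max_right N1 N2).trans hn
      rw [div_le_iff₀ (by linarith)] at hN2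
      nlinarith
    set q : ℕ := ⌈(8 * B + 8) * bb n⌉₊ with hq
    have hbb : 0 ≤ bb n := Y37.TY.bb_nonneg n
    have hq1 : (8 * B + 8) * bb n ≤ q := Nat.le_ceil _
    have hq2 : (q : ℝ) < (8 * B + 8) * bb n + 1 := Nat.ceil_lt_add_one (by positivity)
    have hqn : (q : ℝ) + K₀ ≤ n := by
      have := hK3 n
      linarith
    have hqn' : q + K₀ ≤ n := by exact_mod_cast hqn
    obtain ⟨K, hK⟩ : ∃ K, n = q + K := ⟨n - q, by omega⟩
    have hKr : (K : ℝ) = n - q := by
      rw [hK]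
      push_cast
      ring
    have hlog := Y37.TY.log_le_bb n
    have hlog0 : 0 ≤ Real.log ((n : ℝ) + 2) := by
      have := Y37.TY.log_two_le n
      linarith
    have hn2p : (0 : ℝ) < (n : ℝ) + 2 := by positivity
    have hlq : (4 * B + 4) * bb n ≤ l * q := by
      have h1 : (1 / 2) * ((8 * B + 8) * bb n) ≤ l * q := by
        have : (0 : ℝ) ≤ (8 * B + 8) * bb n := by positivity
        nlinarith
      linarith
    have hiK : ∀ i : ℕ, i ≤ K → ‖Y37.TY.M d c0 i‖ ≤ Real.exp (l * (n - q) + B * bb n) := by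
      intro i hi
      refine (hub i).trans (Real.exp_le_exp.2 ?_)
      have h1 : (i : ℝ) ≤ n - q := by
        rw [← hKr]
        exact_mod_cast hi
      have h2 : bb i ≤ bb n := bb_mono (by omega)
      have h3 : B * bb i ≤ B * bb n := mul_le_mul_of_nonneg_left h2 hB0
      nlinarith
    refine ⟨q, K, hK, by omega, ?_, ?_, ?_⟩
    · intro i hi
      calc ‖Y37.TY.M d c0 i‖ * (n + 2)
          ≤ Real.exp (l * (n - q) + B * bb n) * Real.exp (Real.log ((n : ℝ) + 2)) := by
            rw [Real.exp_log hn2p]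
            exact mul_le_mul_of_nonneg_right (hiK i hi) hn2p.le
        _ = Real.exp (l * (n - q) + B * bb n + Real.log ((n : ℝ) + 2)) := by
            rw [← Real.exp_add]
        _ ≤ Real.exp (l * n - B * bb n) := by
            apply Real.exp_le_exp.2
            nlinarith
        _ ≤ _ := hlb n
    · have h1 : ∀ i ∈ Finset.range K, ‖Y37.TY.M d c0 i‖ ^ 2 * ‖Y37.TY.M d c0 (i + 1)‖⁻¹ ≤
          Real.exp (l * (n - q) + B * bb n + B * Real.log ((n : ℝ) + 2)) := by
        intro i hi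
        rw [Finset.mem_range] at hi
        have h2 : ‖Y37.TY.M d c0 (i + 1)‖ =
            ‖Y37.TY.M d c0 i‖ * (d * ‖P d (i + 1) c0‖ ^ (d - 1)) := by
          rw [Y37.TY.M_succ, norm_mul, norm_mul, norm_pow, Complex.norm_natCast]
        have h3 : ‖Y37.TY.M d c0 i‖ ^ 2 * ‖Y37.TY.M d c0 (i + 1)‖⁻¹ =
            ‖Y37.TY.M d c0 i‖ * (d * ‖P d (i + 1) c0‖ ^ (d - 1))⁻¹ := by
          rw [h2, mul_inv]
          have := (hMp i).ne'
          field_simp
        have h4 : Real.exp (-(B * Real.log ((n : ℝ) + 2))) ≤ d * ‖P d (i + 1) c0‖ ^ (d - 1) := by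
          have h5 : Real.exp (-(B * Real.log ((n : ℝ) + 2))) ≤ ‖P d (i + 1) c0‖ ^ (d - 1) := by
            calc Real.exp (-(B * Real.log ((n : ℝ) + 2)))
                ≤ Real.exp (((d - 1 : ℕ) : ℝ) * (-(A * Real.log (i + 2)))) := by
                  apply Real.exp_le_exp.2
                  have h6 : ((d - 1 : ℕ) : ℝ) = (d : ℝ) - 1 := by
                    rw [Nat.cast_sub (by omega)]
                    simp
                  rw [h6]
                  have h7 : Real.log ((i : ℝ) + 2) ≤ Real.log ((n : ℝ) + 2) := by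
                    apply Real.log_le_log (by positivity)
                    have : (i : ℝ) ≤ n := by exact_mod_cast (by omega : i ≤ n)
                    linarith
                  have h8 : B * Real.log ((i : ℝ) + 2) ≤ B * Real.log ((n : ℝ) + 2) :=
                    mul_le_mul_of_nonneg_left h7 hB0
                  rw [hB] at h8 ⊢
                  linarith
              _ = Real.exp (-(A * Real.log (i + 2))) ^ (d - 1) := by
                  rw [← Real.exp_nat_mul]
              _ ≤ _ := pow_le_pow_left₀ (Real.exp_pos _).le (H2 i) _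
          have h9 : 0 ≤ ‖P d (i + 1) c0‖ ^ (d - 1) := by positivity
          nlinarith
        rw [h3]
        calc ‖Y37.TY.M d c0 i‖ * (d * ‖P d (i + 1) c0‖ ^ (d - 1))⁻¹
            ≤ Real.exp (l * (n - q) + B * bb n) *
              (Real.exp (-(B * Real.log ((n : ℝ) + 2))))⁻¹ :=
              mul_le_mul (hiK i hi.le) (inv_anti₀ (Real.exp_pos _) h4) (by positivity)
                (Real.exp_pos _).le
          _ = Real.exp (l * (n - q) + B * bb n + B * Real.log ((n : ℝ) + 2)) := by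
              rw [← Real.exp_neg, neg_neg, ← Real.exp_add]
      have h2 := Finset.sum_le_sum h1
      rw [Finset.sum_const, Finset.card_range, nsmul_eq_mul] at h2
      have h3 : (K : ℝ) ≤ n + 2 := by
        rw [hKr]
        have : (0 : ℝ) ≤ q := Nat.cast_nonneg q
        linarith
      calc (∑ i ∈ Finset.range K, ‖Y37.TY.M d c0 i‖ ^ 2 * ‖Y37.TY.M d c0 (i + 1)‖⁻¹) * (n + 2)
          ≤ ((K : ℝ) * Real.exp (l * (n - q) + B * bb n + B * Real.log ((n : ℝ) + 2))) *
              (n + 2) := mul_le_mul_of_nonneg_right h2 hn2p.le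
        _ ≤ (((n : ℝ) + 2) * Real.exp (l * (n - q) + B * bb n + B * Real.log ((n : ℝ) + 2))) *
              (n + 2) := by
            gcongr
        _ = Real.exp (Real.log ((n : ℝ) + 2)) *
              Real.exp (l * (n - q) + B * bb n + B * Real.log ((n : ℝ) + 2)) *
              Real.exp (Real.log ((n : ℝ) + 2)) := by
            rw [Real.exp_log hn2p]
        _ = Real.exp (Real.log ((n : ℝ) + 2) +
              (l * (n - q) + B * bb n + B * Real.log ((n : ℝ) + 2)) +
              Real.log ((n : ℝ) + 2)) := by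
            rw [← Real.exp_add, ← Real.exp_add]
        _ ≤ Real.exp (l * n - B * bb n) := by
            apply Real.exp_le_exp.2
            have h4 : B * Real.log ((n : ℝ) + 2) ≤ B * (2 * bb n) :=
              mul_le_mul_of_nonneg_left hlog hB0
            linarith
        _ ≤ _ := hlb n
    · rw [← hL]
      have hL0 : 0 < L := by linarith
      have h1 : (q : ℝ) ≤ Real.exp q := by
        have := Real.add_one_le_exp (q : ℝ)
        linarith
      have h2 : L ^ q = Real.exp (q * Real.log L) := by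
        rw [Real.exp_nat_mul, Real.exp_log hL0]
      calc (q : ℝ) * L ^ q ≤ Real.exp q * Real.exp (q * Real.log L) := by
            rw [h2]
            gcongr
        _ = Real.exp (q * (1 + Real.log L)) := by
            rw [← Real.exp_add]
            congr 1
            ring
        _ ≤ Real.exp (Real.log τ + (l * n - B * bb n)) := by
            apply Real.exp_le_exp.2
            have h3 : q * (1 + Real.log L) ≤ ((8 * B + 8) * bb n + 1) * (1 + Real.log L) :=
              mul_le_mul_of_nonneg_right hq2.le (by linarith)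
            have h4 := hK2 n
            nlinarith
        _ = τ * Real.exp (l * n - B * bb n) := by
            rw [Real.exp_add, Real.exp_log hτ]
        _ ≤ τ * ‖Y37.TY.M d c0 n‖ := mul_le_mul_of_nonneg_left (hlb n) hτ.le

end Pool.Agent.Y79.LC
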