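import Mathlib
import Pool.Agent.Y272.LC.Stm2
import Pool.Agent.Y79.LC.SimB

/-!
Project LC, job SIM: similarity between the parameter plane and the dynamical plane.
-/

set_option autoImplicit false

open Filter Topology Metric Set

namespace Pool.Agent.Y79.LC

open Pool.Agent.H712R2 Pool.Agent.Y272.TY

lemma P_iter (d k : ℕ) (c : ℂ) (hd : 2 ≤ d) : P d (k + 1) c = (fc d c)^[k] c := by
  rw [P, Function.iterate_succ_apply]
  congr 1
  rw [fc, zero_pow (by omega), zero_add]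

lemma fc_diff (d : ℕ) (c : ℂ) (k : ℕ) : Differentiable ℂ ((fc d c)^[k]) := by
  have : Differentiable ℂ (fc d c) := by
    unfold fc
    fun_prop
  exact this.iterate k

theorem t : Pool.Agent.Y272.LC.St_Sim := by
  intro d c0 A R κ δ e hd hA H1 H2 H3 H4 hκ hκ1 hδ hδ1 he
  obtain ⟨S, hS0, hS, hfacts⟩ := facts hd hA H2 H3
  have hne : ∀ n : ℕ, P d (n + 1) c0 ≠ 0 := fun n =>
    norm_pos_iff.1 (lt_of_lt_of_le (Real.exp_pos _) (H2 n))
  set M : ℕ → ℂ := Y37.TY.M d c0 with hM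
  have hMMM : ∀ n, Y272.TY.MM d c0 (n + 1) = M n := fun n => rfl
  have hM0 : M 0 = 1 := Y37.TY.M_zero d c0
  have hMs : ∀ k, M (k + 1) = M k * (d * P d (k + 1) c0 ^ (d - 1)) := Y37.TY.M_succ d c0
  have hMne : ∀ k, M k ≠ 0 := by
    intro k
    induction k with
    | zero => rw [hM0]; exact one_ne_zero
    | succ k ih =>
      rw [hMs]
      have hd0 : (d : ℂ) ≠ 0 := by exact_mod_cast (by omega : d ≠ 0)
      exact mul_ne_zero ih (mul_ne_zero hd0 (pow_ne_zero _ (hne k)))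
  have hMp : ∀ k, 0 < ‖M k‖ := fun k => norm_pos_iff.2 (hMne k)
  set σ : ℕ → ℂ := fun k => ∑ j ∈ Finset.range (k + 1), (M j)⁻¹ with hσ
  have hσR : Tendsto σ atTop (𝓝 R) := by
    refine H4.congr fun n => ?_
    rw [Y37.TY.deriv_eq hd fun k _ => hne k]
    change M n * σ n / M n = σ n
    rw [mul_div_cancel_left₀ _ (hMne n)]
  -- constants
  obtain ⟨w, hw⟩ : ∃ w : ℝ, w = 1 / (‖R‖ + 1) := ⟨_, rfl⟩
  have hR0 := norm_nonneg R
  have hR1 : 0 < ‖R‖ + 1 := by linarith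
  have hw0 : 0 < w := by rw [hw]; positivity
  have hw1 : w ≤ 1 := by rw [hw, div_le_one hR1]; linarith
  have hwR : w * (‖R‖ + 1) = 1 := by rw [hw]; field_simp
  obtain ⟨E, hE⟩ : ∃ E : ℝ, E = min (w / 8) (κ * e / 8) := ⟨_, rfl⟩
  have hE0 : 0 < E := by rw [hE]; exact lt_min (by positivity) (by positivity)
  have hEw : E ≤ w / 8 := by rw [hE]; exact min_le_left _ _
  have hEe : E ≤ κ * e / 8 := by rw [hE]; exact min_le_right _ _
  obtain ⟨s, hs⟩ : ∃ s : ℝ, s = min (1 / 4) (κ * e / 4) := ⟨_, rfl⟩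
  have hs0 : 0 < s := by rw [hs]; exact lt_min (by norm_num) (by positivity)
  have hs4 : s ≤ 1 / 4 := by rw [hs]; exact min_le_left _ _
  have hse : s ≤ κ * e / 4 := by rw [hs]; exact min_le_right _ _
  obtain ⟨K₀, hK₀⟩ := (Metric.tendsto_atTop.1 hσR) s hs0
  obtain ⟨n₁, hn₁⟩ := hfacts (min 1 (e / 2)) (lt_min one_pos (by linarith)) K₀
  obtain ⟨C, hC⟩ : ∃ C : ℝ, C = 4 * (d ^ 2 * 3 ^ d) * S ^ 2 := ⟨_, rfl⟩
  have hC0 : 0 ≤ C := by rw [hC]; positivity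
  obtain ⟨N1, hN1⟩ := exists_nat_ge (C / E)
  obtain ⟨N2, hN2⟩ := exists_nat_ge (2 * S)
  refine ⟨max n₁ (max N1 N2), fun n hn Lip c hc => ?_⟩
  have hnn1 : n₁ ≤ n := (le_max_left _ _).trans hn
  have hnN1 : N1 ≤ n := ((le_max_left _ _).trans (le_max_right _ _)).trans hn
  have hnN2 : N2 ≤ n := ((le_max_right _ _).trans (le_max_right _ _)).trans hn
  obtain ⟨q, K, hnK, hKK, hMi, hZ, hqL⟩ := hn₁ n hnn1
  rw [hMMM] at Lip hc
  obtain ⟨m, hm⟩ : ∃ m : ℝ, m = ‖M n‖ := ⟨_, rfl⟩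
  rw [← hm] at Lip hc hZ hqL
  have hMi' : ∀ i, i ≤ K → ‖M i‖ * (n + 2) ≤ m := by rw [hm]; exact hMi
  have hm0 : 0 < m := by rw [hm]; exact hMp n
  have hn2 : (0 : ℝ) < (n : ℝ) + 2 := by positivity
  have hCE : C ≤ E * (n + 2) := by
    have h1 : (N1 : ℝ) ≤ n := by exact_mod_cast hnN1
    rw [div_le_iff₀ hE0] at hN1
    nlinarith
  have h2S : 2 * S ≤ n + 2 := by
    have h1 : (N2 : ℝ) ≤ n := by exact_mod_cast hnN2
    linarith
  obtain ⟨r, hr⟩ : ∃ r : ℝ, r = κ * δ := ⟨_, rfl⟩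
  have hr0 : 0 < r := by rw [hr]; positivity
  have hr1 : r ≤ 1 := by rw [hr]; nlinarith
  rw [← hr] at Lip hc
  obtain ⟨ζ, hζ⟩ : ∃ ζ : ℂ, ζ = c - c0 := ⟨_, rfl⟩
  rw [← hζ] at hc ⊢
  have hζm : ‖ζ‖ * m ≤ r * w / 2 := by
    refine hc.trans (le_of_eq ?_)
    rw [hw]
    field_simp
  have hζm1 : ‖ζ‖ * m ≤ 1 / 2 := by nlinarith [mul_nonneg hr0.le hw0.le]
  have hζ0 := norm_nonneg ζ
  -- the partial sum
  have hσK : ‖σ K - R‖ ≤ s := by
    have := hK₀ K hKK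
    rw [dist_eq_norm] at this
    exact this.le
  have hσn : ‖σ K‖ ≤ ‖R‖ + 1 / 4 := by
    have := norm_add_le (σ K - R) R
    rw [sub_add_cancel] at this
    linarith
  -- the general estimate
  have ho2 : ∀ k, ‖P d (k + 1) c0‖ ≤ 2 := fun k => H1 (k + 1)
  have hlin : ∀ (a : ℕ → ℂ) (v ξ : ℂ), (∀ k, a (k + 1) = a k ^ d + c0 + ξ) →
      a 0 = P d 1 c0 + v → (‖v‖ + ‖ξ‖) * m ≤ 1 →
      ‖(a K - P d (K + 1) c0) - M K * (v + ξ * (σ K - 1))‖ ≤ ‖M K‖ * (E * (‖v‖ + ‖ξ‖)) := by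
    intro a v ξ ha ha0 hT
    have hT0 : 0 ≤ ‖v‖ + ‖ξ‖ := by positivity
    have hZ' : ∑ i ∈ Finset.range K, ‖M i‖ ^ 2 * ‖M (i + 1)‖⁻¹ ≤ m / (n + 2) := by
      rw [le_div_iff₀ hn2]
      exact hZ
    refine lin hd (o := fun k => P d (k + 1) c0) (a := a) (M := M) (v := v) (ζ := ξ) (c0 := c0)
      (S := S) (ε₁ := E) (Z := m / (n + 2)) (K := K) (fun k => P_succ d (k + 1) c0) ha ha0 hM0
      hMs hMne ho2 hS ?_ hZ' ?_ ?_ K le_rfl
    · intro k hk
      have h1 := hMi' k hk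
      have h2 : (2 * S) * ((‖v‖ + ‖ξ‖) * (‖M k‖ * (n + 2))) ≤ (n + 2) * 1 := by
        refine mul_le_mul h2S ?_ (by positivity) hn2.le
        refine le_trans ?_ hT
        exact mul_le_mul_of_nonneg_left h1 hT0
      have h3 : (2 * S * (‖v‖ + ‖ξ‖) * ‖M k‖) * (n + 2) ≤ 1 * (n + 2) := by
        calc (2 * S * (‖v‖ + ‖ξ‖) * ‖M k‖) * (n + 2)
            = (2 * S) * ((‖v‖ + ‖ξ‖) * (‖M k‖ * (n + 2))) := by ring
          _ ≤ (n + 2) * 1 := h2
          _ = 1 * (n + 2) := by ring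
      exact le_of_mul_le_mul_right h3 hn2
    · rw [← hC]
      calc C * (‖v‖ + ‖ξ‖) * (m / (n + 2)) = C * ((‖v‖ + ‖ξ‖) * m) / (n + 2) := by ring
        _ ≤ (E * (n + 2)) * 1 / (n + 2) := by
            gcongr
        _ = E := by field_simp
    · linarith
  have ho0 : P d 1 c0 = c0 := P_one hd c0
  -- the critical value orbit at the parameter `c`
  obtain ⟨b, hb⟩ : ∃ b : ℂ, b = P d (K + 1) c := ⟨_, rfl⟩
  have hbK : ‖(b - P d (K + 1) c0) - M K * (ζ * σ K)‖ ≤ ‖M K‖ * (E * (2 * ‖ζ‖)) := by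
    have := hlin (fun k => P d (k + 1) c) ζ ζ (fun k => by
      rw [P_succ d (k + 1) c, hζ]
      ring) (by
      rw [ho0]
      change P d 1 c = c0 + ζ
      rw [P_one hd c, hζ]
      ring) (by nlinarith)
    have e1 : ζ + ζ * (σ K - 1) = ζ * σ K := by ring
    rw [e1] at this
    rw [hb, two_mul]
    exact this
  -- the dynamical plane
  obtain ⟨g, hg⟩ : ∃ g : ℂ → ℂ, g = (fc d c0)^[K] := ⟨_, rfl⟩
  have hg0 : g c0 = P d (K + 1) c0 := by rw [hg, P_iter d K c0 hd]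
  have hgz : ∀ z, ‖z - c0‖ * m ≤ 1 → ‖(g z - g c0) - M K * (z - c0)‖ ≤
      ‖M K‖ * (E * ‖z - c0‖) := by
    intro z hz
    have := hlin (fun k => (fc d c0)^[k] z) (z - c0) 0 (fun k => by
      rw [Function.iterate_succ_apply', add_zero]
      rfl) (by
      rw [ho0]
      change z = c0 + (z - c0)
      ring) (by rw [norm_zero, add_zero]; exact hz)
    rw [norm_zero, add_zero, zero_mul, add_zero, ← hg0] at this
    rw [hg] at this ⊢
    exact this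
  obtain ⟨ρ, hρ⟩ : ∃ ρ : ℝ, ρ = (r / m) * (1 - w / 8) := ⟨_, rfl⟩
  have hrm : 0 < r / m := div_pos hr0 hm0
  have hρ0 : 0 < ρ := by rw [hρ]; exact mul_pos hrm (by linarith)
  have hρm : ρ * m = r * (1 - w / 8) := by rw [hρ]; field_simp
  have hρr : ρ < r / m := by
    rw [hρ]
    have : r / m * (1 - w / 8) < r / m * 1 := mul_lt_mul_of_pos_left (by linarith) hrm
    linarith
  have hρm1 : ρ * m ≤ 1 := by rw [hρm]; nlinarith
  obtain ⟨z', hz'ρ, hz'b⟩ : ∃ z, ‖z - c0‖ ≤ ρ ∧ g z = b := by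
    refine open_step (m := ‖M K‖ * (1 - E)) (by rw [hg]; exact fc_diff d c0 K)
      (mul_pos (hMp K) (by linarith)) hρ0 ?_ ?_
    · intro z hz
      have h1 := hgz z (by
        calc ‖z - c0‖ * m ≤ ρ * m := by gcongr
          _ ≤ 1 := hρm1)
      have h2 : ‖M K * (z - c0)‖ = ‖M K‖ * ‖z - c0‖ := norm_mul _ _
      have h3 := norm_sub_norm_le (M K * (z - c0)) (M K * (z - c0) - (g z - g c0))
      rw [sub_sub_cancel, h2, norm_sub_rev (M K * (z - c0))] at h3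
      linarith
    · rw [hg0]
      have h1 : ‖b - P d (K + 1) c0‖ ≤ ‖M K‖ * (‖ζ‖ * (‖R‖ + 1 / 4 + 2 * E)) := by
        have h2 := norm_add_le ((b - P d (K + 1) c0) - M K * (ζ * σ K)) (M K * (ζ * σ K))
        rw [sub_add_cancel] at h2
        have h3 : ‖M K * (ζ * σ K)‖ ≤ ‖M K‖ * (‖ζ‖ * (‖R‖ + 1 / 4)) := by
          rw [norm_mul, norm_mul]
          gcongr
        linarith
      have h4 : ‖ζ‖ * (‖R‖ + 1 / 4 + 2 * E) * m < (1 - E) * (ρ * m) / 2 := by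
        have h5 : ‖ζ‖ * (‖R‖ + 1 / 4 + 2 * E) * m ≤ (r * w / 2) * (‖R‖ + 1 / 2) := by
          calc ‖ζ‖ * (‖R‖ + 1 / 4 + 2 * E) * m = (‖ζ‖ * m) * (‖R‖ + 1 / 4 + 2 * E) := by ring
            _ ≤ (r * w / 2) * (‖R‖ + 1 / 2) := by
              refine mul_le_mul hζm (by linarith) (by positivity) (by positivity)
        have h6 : (r * w / 2) * (‖R‖ + 1 / 2) = (r / 2) * (1 - w / 2) := by
          have : w * ‖R‖ = 1 - w := by linarith
          calc (r * w / 2) * (‖R‖ + 1 / 2) = (r / 2) * (w * ‖R‖ + w / 2) := by ring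
            _ = (r / 2) * (1 - w / 2) := by rw [this]; ring
        have h7 : (r / 2) * (1 - w / 2) < (1 - E) * (ρ * m) / 2 := by
          rw [hρm]
          have h8 : (1 - w / 8) * (1 - w / 8) ≤ (1 - E) * (1 - w / 8) :=
            mul_le_mul_of_nonneg_right (by linarith) (by linarith)
          have h9 : 1 - w / 2 < (1 - w / 8) * (1 - w / 8) := by nlinarith
          have h10 : 1 - w / 2 < (1 - E) * (1 - w / 8) := lt_of_lt_of_le h9 h8
          have h11 := mul_lt_mul_of_pos_left h10 (by linarith : 0 < r / 2)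
          calc (r / 2) * (1 - w / 2) < r / 2 * ((1 - E) * (1 - w / 8)) := h11
            _ = (1 - E) * (r * (1 - w / 8)) / 2 := by ring
        linarith
      have h12 : ‖ζ‖ * (‖R‖ + 1 / 4 + 2 * E) < (1 - E) * ρ / 2 := by
        have h13 : ‖ζ‖ * (‖R‖ + 1 / 4 + 2 * E) * m < ((1 - E) * ρ / 2) * m := by
          calc _ < (1 - E) * (ρ * m) / 2 := h4
            _ = _ := by ring
        exact lt_of_mul_lt_mul_right h13 hm0.le
      calc ‖b - P d (K + 1) c0‖ ≤ ‖M K‖ * (‖ζ‖ * (‖R‖ + 1 / 4 + 2 * E)) := h1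
        _ < ‖M K‖ * ((1 - E) * ρ / 2) := mul_lt_mul_of_pos_left h12 (hMp K)
        _ = ‖M K‖ * (1 - E) * ρ / 2 := by ring
  -- the point `z'` is close to `c0 + R ζ`
  have hz'm : ‖z' - c0‖ * m ≤ 1 := by
    calc ‖z' - c0‖ * m ≤ ρ * m := by gcongr
      _ ≤ 1 := hρm1
  have hclose : ‖z' - (c0 + R * ζ)‖ * m ≤ κ * (e / 2) := by
    have h1 := hgz z' hz'm
    rw [hz'b, hg0] at h1
    have h2 : ‖M K * ((z' - c0) - ζ * σ K)‖ ≤
        ‖M K‖ * (E * (‖z' - c0‖ + 2 * ‖ζ‖)) := by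
      have e1 : M K * ((z' - c0) - ζ * σ K) = ((b - P d (K + 1) c0) - M K * (ζ * σ K)) -
          ((b - P d (K + 1) c0) - M K * (z' - c0)) := by ring
      rw [e1]
      refine (norm_sub_le _ _).trans ?_
      linarith
    rw [norm_mul] at h2
    have h3 := le_of_mul_le_mul_left h2 (hMp K)
    have h4 : ‖ζ * σ K - R * ζ‖ ≤ ‖ζ‖ * s := by
      have : ζ * σ K - R * ζ = ζ * (σ K - R) := by ring
      rw [this, norm_mul]
      gcongr
    have h5 : ‖z' - (c0 + R * ζ)‖ ≤ E * (‖z' - c0‖ + 2 * ‖ζ‖) + ‖ζ‖ * s := by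
      have : z' - (c0 + R * ζ) = ((z' - c0) - ζ * σ K) + (ζ * σ K - R * ζ) := by ring
      rw [this]
      exact (norm_add_le _ _).trans (add_le_add h3 h4)
    calc ‖z' - (c0 + R * ζ)‖ * m ≤ (E * (‖z' - c0‖ + 2 * ‖ζ‖) + ‖ζ‖ * s) * m := by gcongr
      _ = E * (‖z' - c0‖ * m + 2 * (‖ζ‖ * m)) + (‖ζ‖ * m) * s := by ring
      _ ≤ E * (1 + 2 * (1 / 2)) + 1 * s := by
          gcongr
          linarith
      _ ≤ κ * (e / 2) := by linarith
  have hz'ball : z' ∈ ball c0 (r / m) := by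
    rw [mem_ball_iff_norm]
    linarith
  have hc0ball : c0 ∈ ball c0 (r / m) := mem_ball_self hrm
  have hRball : c0 + R * ζ ∈ ball c0 (r / m) := by
    rw [mem_ball_iff_norm, add_sub_cancel_left, norm_mul, lt_div_iff₀ hm0]
    have h1 : ‖R‖ * (‖ζ‖ * m) ≤ ‖R‖ * (r * w / 2) := by gcongr
    have h2 : w * ‖R‖ = 1 - w := by linarith
    have h3 : ‖R‖ * (r * w / 2) = (r / 2) * (w * ‖R‖) := by ring
    rw [h3, h2] at h1
    nlinarith
  have hF0 : (fc d c0)^[n] c0 = P d (n + 1) c0 := (P_iter d n c0 hd).symm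
  -- the last iterates
  have hFz' : (fc d c0)^[n] z' = (fc d c0)^[q] b := by
    rw [hnK, Function.iterate_add_apply, ← hg, hz'b]
  have hPc : P d (n + 1) c = (fc d c)^[q] b := by
    rw [P_iter d n c hd, hnK, Function.iterate_add_apply, hb, P_iter d K c hd]
  have hb3 : ‖(fc d c0)^[q] b‖ ≤ 3 := by
    have h1 := Lip z' hz'ball c0 hc0ball
    rw [hF0] at h1
    have h2 : m * ‖z' - c0‖ ≤ κ * δ := by
      calc m * ‖z' - c0‖ ≤ m * ρ := by gcongr
        _ = ρ * m := mul_comm _ _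
        _ = r * (1 - w / 8) := hρm
        _ ≤ r := by nlinarith
        _ = κ * δ := hr
    have h3 : ‖(fc d c0)^[n] z' - P d (n + 1) c0‖ ≤ δ := le_of_mul_le_mul_left (h1.trans h2) hκ
    rw [← hFz']
    have h4 := norm_add_le ((fc d c0)^[n] z' - P d (n + 1) c0) (P d (n + 1) c0)
    rw [sub_add_cancel] at h4
    have := H1 (n + 1)
    linarith
  have hζq : ‖c - c0‖ * (q * (d * 4 ^ (d - 1) : ℝ) ^ q) ≤ min 1 (e / 2) := by
    rw [← hζ]
    have hmin : 0 ≤ min 1 (e / 2) := le_min zero_le_one (by linarith)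
    calc ‖ζ‖ * (q * (d * 4 ^ (d - 1) : ℝ) ^ q) ≤ ‖ζ‖ * (min 1 (e / 2) * m) := by gcongr
      _ = (‖ζ‖ * m) * min 1 (e / 2) := by ring
      _ ≤ 1 * min 1 (e / 2) := by gcongr; linarith
      _ = min 1 (e / 2) := one_mul _
  have hc02 : ‖c0‖ ≤ 2 := by
    have := H1 1
    rwa [ho0] at this
  have hcmp := cmp hd hc02 hb3 (hζq.trans (min_le_left _ _))
  have h1 : ‖P d (n + 1) c - (fc d c0)^[n] z'‖ ≤ e / 2 := by
    rw [hPc, hFz']
    exact hcmp.trans (hζq.trans (min_le_right _ _))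
  have h2 : ‖(fc d c0)^[n] z' - (fc d c0)^[n] (c0 + R * ζ)‖ ≤ e / 2 := by
    have h3 := Lip z' hz'ball (c0 + R * ζ) hRball
    have h4 : m * ‖z' - (c0 + R * ζ)‖ ≤ κ * (e / 2) := by rw [mul_comm]; exact hclose
    exact le_of_mul_le_mul_left (h3.trans h4) hκ
  have h3 : P d (n + 1) c - (fc d c0)^[n] (c0 + R * ζ) = (P d (n + 1) c - (fc d c0)^[n] z') +
      ((fc d c0)^[n] z' - (fc d c0)^[n] (c0 + R * ζ)) := by ring
  rw [h3]
  refine (norm_add_le _ _).trans ?_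
  linarith

end Pool.Agent.Y79.LC
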